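import Pool.Agent.Run7.h565.LC.Stm8

/-!
# Project LC, piece SET: from `k` points to sets
-/

set_option autoImplicit false

namespace Pool.Agent.Run7.h617.LC

open Finset Equiv Filter Topology Pool.Agent.Y998.ST Pool.Agent.Y998.CN Pool.Agent.Y998.LP
open Pool.Agent.Y998.LQ
open Pool.Agent.TH268.PD (Cyc cyOf frac top ret ret_spec um pdm pdl pdm_close lip_approx top_ret)
open Run7.h565.LC (rel uni S_SET)

/-- the ordered cycle lengths depend only on the relation of being in the same cycle -/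
theorem same_top {k : ℕ} (hk : 0 < k) (σ π : Perm (Fin k))
    (h : ∀ i j, σ.SameCycle i j ↔ π.SameCycle i j) (i : ℕ) : top (frac σ) i = top (frac π) i := by
  rw [top_ret hk id π σ (fun a b => h a b) i, top_ret hk id π π (fun a b => Iff.rfl) i]

section

variable {V : Type} [Fintype V] [DecidableEq V]

/-- the ordered fractions of a set with nearly exchangeable points -/
theorem set_mean3 {J : V → V → ℝ} (hJ : ∀ x y, 0 ≤ J x y) {t : ℝ} (ht : 0 ≤ t) (B : Finset V)
    (k : ℕ) (hk : 0 < k) (hB : 0 < B.card) (η : ℝ) (hη : 0 ≤ η) (m : ℕ) (f : (Fin m → ℝ) → ℝ)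
    (C Λ : ℝ) (hΛ : 0 ≤ Λ) (hC : ∀ u, |f u| ≤ C)
    (hf : ∀ (u v : Fin m → ℝ) (e : ℝ), 0 ≤ e → (∀ i, |u i - v i| ≤ e) → |f u - f v| ≤ Λ * e)
    (h : ∀ b : Fin k → V, Function.Injective b → (∀ i, b i ∈ B) →
      |∑ g, stirLaw J t g * f (fun i => top (frac (ret k b g)) i) - um k f| ≤ η) :
    |∑ g, stirLaw J t g * f (fun i => top (bfrac B g) i) - um k f| ≤
      Λ / Real.sqrt k + 2 * (C * (k ^ 2 / B.card)) + η := by
  classical
  have hC0 : 0 ≤ C := (abs_nonneg _).trans (hC (fun _ => 0))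
  obtain ⟨n, hn⟩ : ∃ n : ℝ, n = (B.card : ℝ) := ⟨_, rfl⟩
  have hn0 : 0 < n := by rw [hn]; exact_mod_cast hB
  obtain ⟨F, hF⟩ : ∃ F : Perm (Fin k) → ℝ, F = fun π => f (fun i => top (frac π) i) := ⟨_, rfl⟩
  have hFC : ∀ π, |F π| ≤ C := fun π => by rw [hF]; exact hC _
  obtain ⟨S, hS⟩ : ∃ S, S = (Fintype.piFinset (fun _ : Fin k => B)).filter Function.Injective :=
    ⟨_, rfl⟩
  have hScard : |(S.card : ℝ) - n ^ k| ≤ (k : ℝ) ^ 2 * n ^ (k - 1) := by
    rw [hS, hn]
    exact card_inj B k hk hB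
  have hSle : (S.card : ℝ) ≤ n ^ k := by
    have h1 : S.card ≤ (Fintype.piFinset (fun _ : Fin k => B)).card := by
      rw [hS]; exact Finset.card_filter_le _ _
    rw [Fintype.card_piFinset_const] at h1
    rw [hn]
    exact_mod_cast h1
  obtain ⟨T, hT⟩ : ∃ T, T = ∑ g, stirLaw J t g * f (fun i => top (bfrac B g) i) := ⟨_, rfl⟩
  have h1 : |∑ b ∈ S, ∑ g, stirLaw J t g * F (ret k b g) - n ^ k * T| ≤
      n ^ k * (Λ / Real.sqrt k) + C * ((k : ℝ) ^ 2 * n ^ (k - 1)) := by
    have e1 : ∑ b ∈ S, ∑ g, stirLaw J t g * F (ret k b g) - n ^ k * T =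
        ∑ g, stirLaw J t g * ((∑ b ∈ Fintype.piFinset (fun _ : Fin k => B),
          if Function.Injective b then F (ret k b g) else 0) -
            n ^ k * f (fun i => top (bfrac B g) i)) := by
      rw [Finset.sum_comm, hT, Finset.mul_sum, ← Finset.sum_sub_distrib]
      refine Finset.sum_congr rfl fun g _ => ?_
      rw [hS, Finset.sum_filter, mul_sub, Finset.mul_sum]
      congr 1
      · refine Finset.sum_congr rfl fun b _ => ?_
        rw [mul_ite, mul_zero]
      · ring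
    rw [e1]
    refine (Finset.abs_sum_le_sum_abs _ _).trans ?_
    have h2 : ∀ g : Perm V, |(∑ b ∈ Fintype.piFinset (fun _ : Fin k => B),
          if Function.Injective b then F (ret k b g) else 0) -
            n ^ k * f (fun i => top (bfrac B g) i)| ≤
          n ^ k * (Λ / Real.sqrt k) + C * ((k : ℝ) ^ 2 * n ^ (k - 1)) := by
      intro g
      have h3 := Pool.Agent.Y259.LP.t_SAMP V B k hk hB g (fun b => ret k b g)
        (fun b hb => (ret_spec k b hb).2.2.2 g) m f C Λ hΛ hC hf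
      rw [hn, hF]
      convert h3 using 4
    have h4 : ∀ g : Perm V, |stirLaw J t g * ((∑ b ∈ Fintype.piFinset (fun _ : Fin k => B),
          if Function.Injective b then F (ret k b g) else 0) -
            n ^ k * f (fun i => top (bfrac B g) i))| ≤ stirLaw J t g *
          (n ^ k * (Λ / Real.sqrt k) + C * ((k : ℝ) ^ 2 * n ^ (k - 1))) := by
      intro g
      rw [abs_mul, abs_of_nonneg (law_nonneg hJ ht g)]
      exact mul_le_mul_of_nonneg_left (h2 g) (law_nonneg hJ ht g)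
    refine (Finset.sum_le_sum fun g _ => h4 g).trans (le_of_eq ?_)
    rw [← Finset.sum_mul, law_sum, one_mul]
  have hum : um k f = (∑ π, F π) / (k.factorial : ℝ) := by rw [hF]; rfl
  have h2 : |∑ b ∈ S, ∑ g, stirLaw J t g * F (ret k b g) - S.card * um k f| ≤
      S.card * η := by
    rw [← nsmul_eq_mul, ← nsmul_eq_mul, ← Finset.sum_const, ← Finset.sum_const,
      ← Finset.sum_sub_distrib]
    refine (Finset.abs_sum_le_sum_abs _ _).trans (Finset.sum_le_sum fun b hb => ?_)
    rw [hS, Finset.mem_filter, Fintype.mem_piFinset] at hb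
    rw [hF]
    exact h b hb.2 hb.1
  have humC : |um k f| ≤ C := by
    have hfac : (0 : ℝ) < (k.factorial : ℝ) := by exact_mod_cast k.factorial_pos
    rw [hum, abs_div, abs_of_pos hfac, div_le_iff₀ hfac]
    refine (Finset.abs_sum_le_sum_abs _ _).trans ?_
    refine (Finset.sum_le_sum fun σ _ => hFC σ).trans (le_of_eq ?_)
    rw [Finset.sum_const, Finset.card_univ, Fintype.card_perm, Fintype.card_fin, nsmul_eq_mul,
      mul_comm]
  have h3 : |(S.card : ℝ) * um k f - n ^ k * um k f| ≤ C * ((k : ℝ) ^ 2 * n ^ (k - 1)) := by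
    rw [← sub_mul, abs_mul, mul_comm]
    exact mul_le_mul humC hScard (abs_nonneg _) hC0
  have h4 : n ^ k * |T - um k f| ≤ n ^ k * (Λ / Real.sqrt k) + 2 * (C * ((k : ℝ) ^ 2 *
      n ^ (k - 1))) + n ^ k * η := by
    have h5 : n ^ k * |T - um k f| = |n ^ k * T - n ^ k * um k f| := by
      rw [← mul_sub, abs_mul, abs_of_pos (pow_pos hn0 k)]
    rw [h5]
    have h6 := mul_le_mul_of_nonneg_right hSle hη
    rw [abs_le] at h1 h2 h3 ⊢
    constructor <;> linarith [h1.1, h1.2, h2.1, h2.2, h3.1, h3.2]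
  have hnk : n ^ k = n ^ (k - 1) * n := by
    rw [← pow_succ]
    congr 1
    omega
  have hnk0 : 0 < n ^ k := pow_pos hn0 k
  have h5 : n ^ k * (Λ / Real.sqrt k) + 2 * (C * ((k : ℝ) ^ 2 *
      n ^ (k - 1))) + n ^ k * η = n ^ k * (Λ / Real.sqrt k +
        2 * (C * (k ^ 2 / n)) + η) := by
    rw [hnk]
    field_simp
  rw [h5] at h4
  have h6 := le_of_mul_le_mul_left h4 hnk0
  rw [← hT, ← hn]
  exact h6

/-- from functions of the relation to functions of the ordered cycle lengths -/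
theorem ret_mean (J : V → V → ℝ) (t : ℝ) {k : ℕ} (hk : 0 < k) (b : Fin k → V)
    (hb : Function.Injective b) (η : ℝ) (m : ℕ) (f : (Fin m → ℝ) → ℝ) (C : ℝ)
    (hC : ∀ u, |f u| ≤ C)
    (h : ∀ Ψ : (Fin k → Fin k → Prop) → ℝ, (∀ R, |Ψ R| ≤ 1) →
      |stirExp J t (fun g => Ψ (rel g b)) - uni k Ψ| ≤ η) :
    |∑ g, stirLaw J t g * f (fun i => top (frac (ret k b g)) i) - um k f| ≤ (C + 1) * η := by
  classical
  have hC0 : 0 ≤ C := (abs_nonneg _).trans (hC (fun _ => 0))
  have hC1 : 0 < C + 1 := by linarith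
  obtain ⟨F, hF⟩ : ∃ F : Perm (Fin k) → ℝ, F = fun π => f (fun i => top (frac π) i) := ⟨_, rfl⟩
  have hFC : ∀ π, |F π| ≤ C := fun π => by rw [hF]; exact hC _
  obtain ⟨Ψ, hΨ⟩ : ∃ Ψ : (Fin k → Fin k → Prop) → ℝ, Ψ = fun R =>
      if h : ∃ π : Perm (Fin k), R = fun i j => π.SameCycle i j then F h.choose / (C + 1) else 0 :=
    ⟨_, rfl⟩
  have h1 : ∀ R, |Ψ R| ≤ 1 := by
    intro R
    rw [hΨ]
    beta_reduce
    split_ifs with h2
    · rw [abs_div, abs_of_pos hC1, div_le_one hC1]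
      linarith [hFC h2.choose]
    · rw [abs_zero]
      exact zero_le_one
  have h2 : ∀ π : Perm (Fin k), Ψ (fun i j => π.SameCycle i j) = F π / (C + 1) := by
    intro π
    have h3 : ∃ π' : Perm (Fin k), (fun i j : Fin k => π.SameCycle i j) =
        fun i j => π'.SameCycle i j := ⟨π, rfl⟩
    have h4 : F h3.choose = F π := by
      have h5 := h3.choose_spec
      rw [hF]
      beta_reduce
      congr 1
      funext i
      refine same_top hk _ _ (fun a c => ?_) i
      have h6 := congrFun (congrFun h5 a) c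
      exact (Eq.to_iff h6).symm
    rw [hΨ]
    beta_reduce
    rw [dif_pos h3, h4]
  have h3 : ∀ g : Perm V, Ψ (rel g b) = F (ret k b g) / (C + 1) := by
    intro g
    rw [← h2]
    congr 1
    funext i j
    exact propext ((ret_spec k b hb).2.2.2 g i j).symm
  have h4 : uni k Ψ = um k f / (C + 1) := by
    unfold uni um
    rw [Finset.sum_congr rfl fun π _ => h2 π, ← Finset.sum_div, hF]
    ring
  have h5 := h Ψ h1
  have h6 : stirExp J t (fun g => Ψ (rel g b)) =
      (∑ g, stirLaw J t g * f (fun i => top (frac (ret k b g)) i)) / (C + 1) := by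
    unfold stirExp
    rw [Finset.sum_div]
    refine Finset.sum_congr rfl fun g _ => ?_
    beta_reduce
    rw [h3, hF]
    ring
  rw [h6, h4, ← sub_div, abs_div, abs_of_pos hC1, div_le_iff₀ hC1] at h5
  rw [mul_comm]
  exact h5

end

/-- Piece SET: from `k` points to sets. -/
theorem t_SET : S_SET := by
  classical
  intro m f hfc C hC ε hε
  have hC0 : 0 ≤ C := (abs_nonneg _).trans (hC (fun _ => 0))
  obtain ⟨Λ, h, hΛ, hhc, hhC, hhL, hfh⟩ := lip_approx m f hfc C hC (ε / 4) (by positivity)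
  have h1 := Pool.Agent.TH268.PD.Unif.lim_um pdl hhc hhC
  rw [Metric.tendsto_atTop] at h1
  obtain ⟨k₀, hk₀⟩ := h1 (ε / 8) (by positivity)
  obtain ⟨k₁, hk₁⟩ := exists_nat_gt ((8 * (Λ + 1) / ε) ^ 2)
  obtain ⟨k, hk⟩ : ∃ k, k = max (max k₀ k₁) 1 := ⟨_, rfl⟩
  have hk1 : 1 ≤ k := by rw [hk]; exact le_max_right _ _
  have hkk0 : k₀ ≤ k := by rw [hk]; exact (le_max_left _ _).trans (le_max_left _ _)
  have hkk1 : k₁ ≤ k := by rw [hk]; exact (le_max_right _ _).trans (le_max_left _ _)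
  have hkR : (1 : ℝ) ≤ k := by exact_mod_cast hk1
  have hsq : 0 < Real.sqrt k := Real.sqrt_pos.2 (by linarith)
  have e1 : Λ / Real.sqrt k ≤ ε / 8 := by
    have h2 : 8 * (Λ + 1) / ε ≤ Real.sqrt k := by
      apply Real.le_sqrt_of_sq_le
      have : (k₁ : ℝ) ≤ k := by exact_mod_cast hkk1
      linarith
    rw [div_le_iff₀ hε] at h2
    rw [div_le_iff₀ hsq]
    nlinarith
  have e2 : |um k h - pdm h| ≤ ε / 8 := by
    have := hk₀ k hkk0
    rw [Real.dist_eq] at this
    exact this.le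
  obtain ⟨N, hN⟩ := exists_nat_gt (16 * (C * k ^ 2) / ε)
  refine ⟨k, N + 1, ε / (8 * (C + 1)), by positivity, by omega, ?_⟩
  intro V _ _ J hJ t ht B hB hη
  have hB0 : 0 < B.card := by omega
  have hBR : (0 : ℝ) < B.card := by exact_mod_cast hB0
  have hNB : (N : ℝ) ≤ B.card := by
    have : N ≤ B.card := by omega
    exact_mod_cast this
  have e3 := set_mean3 hJ ht B k (by omega) hB0 ((C + 1) * (ε / (8 * (C + 1)))) (by positivity) m h
    C Λ hΛ hhC hhL (fun b hb hbB => ret_mean J t (by omega) b hb _ m h C hhC (hη b hb hbB))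
  have e4 : 2 * (C * (k ^ 2 / B.card)) ≤ ε / 8 := by
    have h2 : 16 * (C * k ^ 2) ≤ ε * B.card := by
      rw [div_lt_iff₀ hε] at hN
      nlinarith
    have h3 : 2 * (C * ((k : ℝ) ^ 2 / B.card)) = 2 * (C * k ^ 2) / B.card := by ring
    rw [h3, div_le_iff₀ hBR]
    linarith
  have e5 : (C + 1) * (ε / (8 * (C + 1))) = ε / 8 := by
    have : C + 1 ≠ 0 := by positivity
    field_simp
  have e6 : |stirExp J t (fun g => f (fun i => top (bfrac B g) i)) -
      ∑ g, stirLaw J t g * h (fun i => top (bfrac B g) i)| ≤ ε / 4 := by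
    unfold stirExp
    rw [← Finset.sum_sub_distrib]
    refine (Finset.abs_sum_le_sum_abs _ _).trans ?_
    have h2 : ∀ g : Perm V, |stirLaw J t g * f (fun i => top (bfrac B g) i) -
        stirLaw J t g * h (fun i => top (bfrac B g) i)| ≤ stirLaw J t g * (ε / 4) := by
      intro g
      rw [← mul_sub, abs_mul, abs_of_nonneg (law_nonneg hJ ht g)]
      have hfin : Finite (Cyc g) := Quotient.finite _
      exact mul_le_mul_of_nonneg_left (hfh _ fun i =>
        ⟨Pool.Agent.TH268.PD.top_nonneg _ (bfrac_nonneg B g) i,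
          Pool.Agent.TH268.PD.top_le_one _ (bfrac_nonneg B g) (bfrac_le_one B g) i⟩)
        (law_nonneg hJ ht g)
    refine (Finset.sum_le_sum fun g _ => h2 g).trans (le_of_eq ?_)
    rw [← Finset.sum_mul, law_sum, one_mul]
  have e7 : |pdm f - pdm h| ≤ ε / 4 := by
    have := pdm_close pdl m f h hfc hhc C hC hhC (ε / 4) hfh 1 zero_le_one le_rfl
    simpa only [one_mul] using this
  rw [e5] at e3
  rw [abs_le] at e2 e3 e6 e7 ⊢
  constructor <;> linarith [e2.1, e2.2, e3.1, e3.2, e6.1, e6.2, e7.1, e7.2]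

end Pool.Agent.Run7.h617.LC

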